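import Pool.Agent.Helper19.Germ.Defs

/-!
Calculus of the predicate `CB` (all derivatives up to order `n` bounded by `e`), relative version.
-/

open Filter Topology Set

namespace Pool.Agent.Germ.H37

/-- relative version of `CB`: `f` is `n` times differentiable on `ℝ`, and on the set `B` all
derivatives up to order `n` are bounded by `e`. -/
def CBs (B : Set ℝ) : ℕ → ℝ → (ℝ → ℝ) → Prop
  | 0, e, f => ∀ x ∈ B, |f x| ≤ e
  | n + 1, e, f => (∀ x ∈ B, |f x| ≤ e) ∧ Differentiable ℝ f ∧ CBs B n e (deriv f)

theorem CB_iff {n : ℕ} {e : ℝ} {f : ℝ → ℝ} : CB n e f ↔ CBs univ n e f := by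
  induction n generalizing f with
  | zero => simp [CB, CBs]
  | succ n ih => simp [CB, CBs, ih]

variable {B B' : Set ℝ} {n : ℕ} {e e' a b : ℝ} {f g : ℝ → ℝ}

theorem CBs.bound (h : CBs B n e f) : ∀ x ∈ B, |f x| ≤ e := by
  cases n with
  | zero => exact h
  | succ n => exact h.1

theorem CBs.nonneg (h : CBs B n e f) (hB : B.Nonempty) : 0 ≤ e := by
  obtain ⟨x, hx⟩ := hB
  exact (abs_nonneg _).trans (h.bound x hx)

theorem CBs.diff (h : CBs B (n + 1) e f) : Differentiable ℝ f := h.2.1

theorem CBs.deriv (h : CBs B (n + 1) e f) : CBs B n e (deriv f) := h.2.2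

theorem CBs.mono (h : CBs B n e f) (he : e ≤ e') : CBs B n e' f := by
  induction n generalizing f with
  | zero => exact fun x hx => (h x hx).trans he
  | succ n ih => exact ⟨fun x hx => (h.1 x hx).trans he, h.2.1, ih h.2.2⟩

theorem CBs.subset (h : CBs B n e f) (hB : B' ⊆ B) : CBs B' n e f := by
  induction n generalizing f with
  | zero => exact fun x hx => h x (hB hx)
  | succ n ih => exact ⟨fun x hx => h.1 x (hB hx), h.2.1, ih h.2.2⟩

theorem CBs.union (h : CBs B n e f) (h' : CBs B' n e f) : CBs (B ∪ B') n e f := by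
  induction n generalizing f with
  | zero => exact fun x hx => hx.elim (h x) (h' x)
  | succ n ih => exact ⟨fun x hx => hx.elim (h.1 x) (h'.1 x), h.2.1, ih h.2.2 h'.2.2⟩

theorem CBs.pred (h : CBs B (n + 1) e f) : CBs B n e f := by
  induction n generalizing f with
  | zero => exact h.1
  | succ n ih => exact ⟨h.1, h.2.1, ih h.2.2⟩

theorem CBs.of_le {m : ℕ} (h : CBs B n e f) (hm : m ≤ n) : CBs B m e f := by
  induction n with
  | zero => obtain rfl : m = 0 := by omega
            exact h
  | succ n ih =>
    rcases Nat.lt_or_ge m (n + 1) with h1 | h1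
    · exact ih h.pred (by omega)
    · obtain rfl : m = n + 1 := by omega
      exact h

theorem CBs.contDiff (h : CBs B (n + 1) e f) : ContDiff ℝ n f := by
  induction n generalizing f with
  | zero => exact contDiff_zero.2 h.diff.continuous
  | succ n ih =>
    have h1 := ih h.2.2
    have : ContDiff ℝ ((n : WithTop ℕ∞) + 1) f :=
      contDiff_succ_iff_deriv.2 ⟨h.diff, by simp, h1⟩
    exact_mod_cast this

theorem CBs.add (h : CBs B n a f) (h' : CBs B n b g) : CBs B n (a + b) (fun x => f x + g x) := by
  induction n generalizing f g with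
  | zero => exact fun x hx => (abs_add_le _ _).trans (add_le_add (h x hx) (h' x hx))
  | succ n ih =>
    refine ⟨fun x hx => (abs_add_le _ _).trans (add_le_add (h.1 x hx) (h'.1 x hx)),
      h.diff.add h'.diff, ?_⟩
    have : _root_.deriv (fun x => f x + g x) = fun x => _root_.deriv f x + _root_.deriv g x := by
      funext x; exact deriv_fun_add (h.diff x) (h'.diff x)
    rw [this]
    exact ih h.2.2 h'.2.2

theorem CBs.const (c : ℝ) : CBs B n |c| (fun _ => c) := by
  suffices H : ∀ (e c : ℝ), |c| ≤ e → CBs B n e (fun _ => c) from H _ _ le_rfl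
  induction n with
  | zero => exact fun e c hc x _ => hc
  | succ n ih =>
    intro e c hc
    refine ⟨fun x _ => hc, differentiable_const c, ?_⟩
    have : _root_.deriv (fun _ : ℝ => c) = fun _ => (0 : ℝ) := by
      funext x; simp
    rw [this]
    exact ih _ _ (by simpa using (abs_nonneg c).trans hc)

theorem CBs.const_mul (k : ℝ) (h : CBs B n e f) : CBs B n (|k| * e) (fun x => k * f x) := by
  induction n generalizing f with
  | zero => exact fun x hx => by rw [abs_mul]; exact mul_le_mul_of_nonneg_left (h x hx) (abs_nonneg _)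
  | succ n ih =>
    refine ⟨fun x hx => ?_, h.diff.const_mul k, ?_⟩
    · rw [abs_mul]; exact mul_le_mul_of_nonneg_left (h.1 x hx) (abs_nonneg _)
    · have : _root_.deriv (fun x => k * f x) = fun x => k * _root_.deriv f x := by
        funext x; exact deriv_const_mul k (h.diff x)
      rw [this]
      exact ih h.2.2

theorem CBs.neg (h : CBs B n e f) : CBs B n e (fun x => - f x) := by
  have := h.const_mul (-1)
  simpa using this

theorem CBs.sub (h : CBs B n a f) (h' : CBs B n b g) : CBs B n (a + b) (fun x => f x - g x) := by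
  have := h.add h'.neg
  simpa [sub_eq_add_neg] using this

theorem CBs.mul (h : CBs B n a f) (h' : CBs B n b g) (ha : 0 ≤ a) (hb : 0 ≤ b) :
    CBs B n (2 ^ n * (a * b)) (fun x => f x * g x) := by
  induction n generalizing f g with
  | zero =>
    intro x hx
    rw [abs_mul, pow_zero, one_mul]
    exact mul_le_mul (h x hx) (h' x hx) (abs_nonneg _) ha
  | succ n ih =>
    have hab : 0 ≤ a * b := mul_nonneg ha hb
    refine ⟨fun x hx => ?_, h.diff.mul h'.diff, ?_⟩
    · rw [abs_mul]
      refine (mul_le_mul (h.1 x hx) (h'.1 x hx) (abs_nonneg _) ha).trans ?_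
      have : (1 : ℝ) ≤ 2 ^ (n + 1) := one_le_pow₀ (by norm_num)
      nlinarith
    · have : _root_.deriv (fun x => f x * g x) =
          fun x => _root_.deriv f x * g x + f x * _root_.deriv g x := by
        funext x; exact deriv_fun_mul (h.diff x) (h'.diff x)
      rw [this]
      refine ((ih h.2.2 h'.pred).add (ih h.pred h'.2.2)).mono (le_of_eq ?_)
      rw [pow_succ]; ring

/-- congruence on an open set -/
theorem CBs.congr_open (h : CBs B n e f) (hB : IsOpen B) (hfg : ∀ x ∈ B, f x = g x)
    (hg : CBs ∅ n e g) : CBs B n e g := by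
  induction n generalizing f g with
  | zero => exact fun x hx => by rw [← hfg x hx]; exact h x hx
  | succ n ih =>
    refine ⟨fun x hx => by rw [← hfg x hx]; exact h.1 x hx, hg.diff, ?_⟩
    refine ih h.2.2 (fun x hx => ?_) hg.2.2
    apply Filter.EventuallyEq.deriv_eq
    filter_upwards [hB.mem_nhds hx] with y hy using hfg y hy

/-- extension by zero -/
theorem CBs.of_zero (h : CBs B n e f) (hB : IsClosed B) (h0 : ∀ x ∉ B, f x = 0) (he : 0 ≤ e) :
    CBs univ n e f := by
  induction n generalizing f with
  | zero =>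
    intro x _
    by_cases hx : x ∈ B
    · exact h x hx
    · rw [h0 x hx]; simpa using he
  | succ n ih =>
    refine ⟨fun x _ => ?_, h.diff, ih h.2.2 fun x hx => ?_⟩
    · by_cases hx : x ∈ B
      · exact h.1 x hx
      · rw [h0 x hx]; simpa using he
    · have : f =ᶠ[𝓝 x] fun _ => 0 := by
        filter_upwards [hB.isOpen_compl.mem_nhds hx] with y hy using h0 y hy
      rw [this.deriv_eq]; simp

/-- `DBs`: all derivatives of orders `1..n` are bounded by `M` on `B`. -/
def DBs (B : Set ℝ) : ℕ → ℝ → (ℝ → ℝ) → Prop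
  | 0, _, _ => True
  | n + 1, M, f => Differentiable ℝ f ∧ CBs B n M (deriv f)

theorem DBs.pred {M : ℝ} (h : DBs B (n + 1) M f) : DBs B n M f := by
  cases n with
  | zero => trivial
  | succ n => exact ⟨h.1, h.2.pred⟩

theorem CBs.toDBs (h : CBs B n e f) : DBs B n e f := by
  cases n with
  | zero => trivial
  | succ n => exact ⟨h.diff, h.2.2⟩

theorem DBs.mono {M M' : ℝ} (h : DBs B n M f) (hM : M ≤ M') : DBs B n M' f := by
  cases n with
  | zero => trivial
  | succ n => exact ⟨h.1, h.2.mono hM⟩

/-- composition constant -/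
noncomputable def cc (M : ℝ) : ℕ → ℝ
  | 0 => 1
  | n + 1 => 2 ^ n * (cc M n * M)

theorem one_le_cc {M : ℝ} (hM : 1 ≤ M) (n : ℕ) : 1 ≤ cc M n := by
  induction n with
  | zero => exact le_rfl
  | succ n ih =>
    have h1 : (1 : ℝ) ≤ 2 ^ n := one_le_pow₀ (by norm_num)
    have h2 : 1 ≤ cc M n * M := by nlinarith
    show 1 ≤ 2 ^ n * (cc M n * M)
    nlinarith

theorem CBs.comp {M : ℝ} {K β : ℝ → ℝ} (hM : 1 ≤ M) (hK : CBs B' n e K) (he : 0 ≤ e)
    (hβ : DBs B n M β) (hm : ∀ x ∈ B, β x ∈ B') : CBs B n (cc M n * e) (fun x => K (β x)) := by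
  induction n generalizing K with
  | zero => intro x hx; simpa [cc] using hK _ (hm x hx)
  | succ n ih =>
    refine ⟨fun x hx => ?_, hK.diff.comp hβ.1, ?_⟩
    · refine (hK.1 _ (hm x hx)).trans ?_
      have := one_le_cc hM (n + 1)
      nlinarith
    · have : _root_.deriv (fun x => K (β x)) = fun x => _root_.deriv K (β x) * _root_.deriv β x := by
        funext x
        exact deriv_comp x (hK.diff (β x)) (hβ.1 x)
      rw [this]
      have h1 := ih hK.2.2 hβ.pred
      have h0 := one_le_cc hM n
      refine (h1.mul hβ.2 (by nlinarith) (by linarith)).mono (le_of_eq ?_)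
      show _ = 2 ^ n * (cc M n * M) * e
      ring

/-- affine substitution, contracting -/
theorem CBs.affine (h : CBs B n e f) (he : 0 ≤ e) (c k : ℝ) (Λ : ℝ) (hΛ : 1 ≤ Λ) (hk : |k| ≤ Λ) :
    CBs {x | c + k * x ∈ B} n (Λ ^ n * e) (fun x => f (c + k * x)) := by
  induction n generalizing f e with
  | zero => intro x hx; simpa using h _ hx
  | succ n ih =>
    refine ⟨fun x hx => ?_, ?_, ?_⟩
    · refine (h.1 _ hx).trans ?_
      have : 1 ≤ Λ ^ (n + 1) := one_le_pow₀ hΛ
      nlinarith
    · exact h.diff.comp ((differentiable_id.const_mul k).const_add c)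
    · have : _root_.deriv (fun x => f (c + k * x)) = fun x => k * _root_.deriv f (c + k * x) := by
        funext x
        have h1 : HasDerivAt (fun x : ℝ => c + k * x) k x := by
          simpa using ((hasDerivAt_id x).const_mul k).const_add c
        have h2 := (h.diff (c + k * x)).hasDerivAt.comp x h1
        rw [mul_comm]
        exact h2.deriv
      rw [this]
      refine ((ih h.2.2 he).const_mul k).mono ?_
      have h1 : 0 ≤ Λ ^ n * e := by positivity
      calc |k| * (Λ ^ n * e) ≤ Λ * (Λ ^ n * e) := mul_le_mul_of_nonneg_right hk h1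
        _ = Λ ^ (n + 1) * e := by ring

/-- reciprocal constant -/
noncomputable def rc (M : ℝ) : ℕ → ℝ
  | 0 => 2
  | n + 1 => 2 + 2 ^ n * (M * (2 ^ n * (rc M n * rc M n)))

theorem rc_nonneg {M : ℝ} (hM : 0 ≤ M) (n : ℕ) : 2 ≤ rc M n := by
  induction n with
  | zero => exact le_rfl
  | succ n ih =>
    show (2 : ℝ) ≤ 2 + 2 ^ n * (M * (2 ^ n * (rc M n * rc M n)))
    have : 0 ≤ 2 ^ n * (M * (2 ^ n * (rc M n * rc M n))) := by
      have : 0 ≤ rc M n := by linarith
      positivity
    linarith

theorem CBs.inv {M : ℝ} (hM : 0 ≤ M) (h : CBs univ n M f) (h2 : ∀ x, 1 / 2 ≤ f x) :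
    CBs univ n (rc M n) (fun x => (f x)⁻¹) := by
  have hb : ∀ x, |(f x)⁻¹| ≤ 2 := fun x => by
    have := h2 x
    rw [abs_of_pos (by positivity)]
    rw [inv_le_comm₀ (by linarith) (by norm_num)]
    linarith
  induction n generalizing f with
  | zero => exact fun x _ => hb x
  | succ n ih =>
    refine ⟨fun x _ => (hb x).trans (rc_nonneg hM _), h.diff.inv (fun x => ?_), ?_⟩
    · have := h2 x
      intro h0
      rw [h0] at this
      norm_num at this
    · have : _root_.deriv (fun x => (f x)⁻¹) =
          fun x => - (_root_.deriv f x * ((f x)⁻¹ * (f x)⁻¹)) := by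
        funext x
        have h0 : f x ≠ 0 := by
          have := h2 x
          intro h0
          rw [h0] at this
          norm_num at this
        have := (h.diff x).hasDerivAt.inv h0
        rw [show (fun x => (f x)⁻¹) = f⁻¹ from rfl, this.deriv]
        field_simp
      rw [this]
      have h1 := ih h.pred h2 hb
      have h3 := rc_nonneg hM n
      have h4 := h1.mul h1 (by linarith) (by linarith)
      refine ((h.2.2.mul h4 hM (by positivity)).neg).mono ?_
      show _ ≤ 2 + 2 ^ n * (M * (2 ^ n * (rc M n * rc M n)))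
      linarith

/-- inverse constant -/
noncomputable def ic (M : ℝ) : ℕ → ℝ
  | 0 => 1
  | n + 1 => cc (ic M n) n * rc M n

theorem one_le_ic {M : ℝ} (hM : 0 ≤ M) (n : ℕ) : 1 ≤ ic M n := by
  induction n with
  | zero => exact le_rfl
  | succ n ih =>
    show 1 ≤ cc (ic M n) n * rc M n
    have h1 := one_le_cc ih n
    have h2 := rc_nonneg hM n
    nlinarith

theorem CBs.zero_le_of_univ (h : CBs univ n e f) : 0 ≤ e := h.nonneg ⟨0, trivial⟩

/-- derivatives of the inverse function -/
theorem DBs.inverse {M : ℝ} (hM : 0 ≤ M) {b : ℝ → ℝ} {bi : ℝ → ℝ} (h : DBs univ n M b)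
    (hd : Differentiable ℝ b)
    (h2 : ∀ x, 1 / 2 ≤ _root_.deriv b x) (hb : ∀ y, b (bi y) = y) (hbi : Continuous bi) :
    DBs univ n (ic M n) bi := by
  have hD : ∀ y, HasDerivAt bi (_root_.deriv b (bi y))⁻¹ y := fun y => by
    apply HasDerivAt.of_local_left_inverse hbi.continuousAt (hd _).hasDerivAt
    · have := h2 (bi y)
      intro h0
      rw [h0] at this
      norm_num at this
    · exact Filter.Eventually.of_forall hb
  induction n with
  | zero => trivial
  | succ n ih =>
    refine ⟨fun y => (hD y).differentiableAt, ?_⟩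
    have h1 := ih h.pred
    have h3 : CBs univ n (rc M n) (fun x => (_root_.deriv b x)⁻¹) := h.2.inv hM h2
    have h4 := h3.comp (B := univ) (one_le_ic hM n) (by linarith [rc_nonneg hM n]) h1
      (fun x _ => trivial)
    have : _root_.deriv bi = fun y => (_root_.deriv b (bi y))⁻¹ := by
      funext y; exact (hD y).deriv
    rw [this]
    exact h4

end Pool.Agent.Germ.H37
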