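import Pool.Agent.Helper37.Germ.RollAux

/-!
First part of the rolling lemma: the conjugating map `a0` and the periodic correction.
-/

open Filter Topology Set

namespace Pool.Agent.Germ.H37

theorem pow_left {s : Equiv.Perm ℝ} (hs : SuppIn 0 1 s) (δ : ℝ) (j : ℕ) (y : ℝ) (hδ : 0 ≤ δ)
    (h : y + j * δ ≤ 0) : ((s * Equiv.addRight δ) ^ j) y = y + j * δ := by
  induction j with
  | zero => simp
  | succ j ih =>
    push_cast at h
    have h1 : y + j * δ ≤ 0 := by nlinarith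
    rw [pow_succ', Equiv.Perm.mul_apply, ih h1, Equiv.Perm.mul_apply]
    have h2 : (Equiv.addRight δ) (y + j * δ) = y + (j + 1) * δ := by
      show y + j * δ + δ = _
      ring
    rw [h2, hs _ (Or.inl h)]
    push_cast; ring

theorem exists_a0 : ∃ C c : ℝ, 1 ≤ C ∧ 0 < c ∧ ∀ (e : ℝ) (n : ℕ) (s : Equiv.Perm ℝ), 8 ≤ n →
    0 ≤ e → n * e ≤ c → SuppIn 0 1 s → CBs univ 4 e (fun x => s x - x) →
    ∃ a0 : ℝ → ℝ, CBs univ 4 (C * (n * e)) (fun x => a0 x - x) ∧ (∀ x ≤ 0, a0 x = x) ∧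
      (∀ x ≤ 2, a0 x = s (a0 (x - 1 / n) + 1 / n)) := by
  obtain ⟨C, c, hC, hc, H⟩ := compL 4
  refine ⟨C * 2, c / 2, by linarith, by linarith, fun e n s hn he hne hs hσ => ?_⟩
  set δ : ℝ := 1 / n with hδ
  have hn0 : (0 : ℝ) < n := by
    have : (8 : ℝ) ≤ n := by exact_mod_cast hn
    linarith
  have hδ0 : 0 < δ := by positivity
  have hnδ : (n : ℝ) * δ = 1 := by rw [hδ]; field_simp
  set h : Equiv.Perm ℝ := s * Equiv.addRight δ with hh
  have hha : ∀ y, h y = s (y + δ) := fun y => rfl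
  let F : ℕ → ℝ → ℝ := fun j x => (h ^ j) (x - 2) + (2 - j * δ)
  let φ : ℕ → ℝ → ℝ := fun j z => s ((-2 + (j + 1) * δ) + 1 * z) - ((-2 + (j + 1) * δ) + 1 * z)
  have hφ : ∀ j, CBs univ 4 e (φ j) := by
    intro j
    exact ((hσ.affine he (-2 + (j + 1) * δ) 1 1 le_rfl (by simp)).subset
      (fun x _ => trivial)).mono (by simp)
  have hN : ((2 * n : ℕ) : ℝ) * e ≤ c := by push_cast; linarith
  have HH := H e (2 * n) φ F he hN hφ (fun x => by simp [F]) (fun j x => by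
    show (h ^ (j + 1)) (x - 2) + (2 - ((j + 1 : ℕ) : ℝ) * δ) = _
    rw [pow_succ', Equiv.Perm.mul_apply, hha]
    show _ = (h ^ j) (x - 2) + (2 - j * δ) + (s ((-2 + (j + 1) * δ) + 1 * ((h ^ j) (x - 2) + (2 - j * δ))) - ((-2 + (j + 1) * δ) + 1 * ((h ^ j) (x - 2) + (2 - j * δ))))
    have : (-2 + (j + 1) * δ) + 1 * ((h ^ j) (x - 2) + (2 - j * δ)) = (h ^ j) (x - 2) + δ := by ring
    rw [this]
    push_cast
    ring) (2 * n) le_rfl
  refine ⟨fun x => (h ^ (2 * n)) (x - 2), ?_, ?_, ?_⟩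
  · have h1 : (fun x => F (2 * n) x - x) = fun x => (h ^ (2 * n)) (x - 2) - x := by
      funext x
      show (h ^ (2 * n)) (x - 2) + (2 - ((2 * n : ℕ) : ℝ) * δ) - x = _
      have : ((2 * n : ℕ) : ℝ) * δ = 2 := by push_cast; linarith
      rw [this]; ring
    rw [h1] at HH
    refine HH.mono (le_of_eq ?_)
    push_cast; ring
  · intro x hx
    show (h ^ (2 * n)) (x - 2) = x
    have h2 : ((2 * n : ℕ) : ℝ) * δ = 2 := by push_cast; linarith
    rw [hh, pow_left hs δ (2 * n) (x - 2) hδ0.le (by rw [h2]; linarith), h2]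
    ring
  · intro x hx
    show (h ^ (2 * n)) (x - 2) = s ((h ^ (2 * n)) (x - δ - 2) + δ)
    rw [← hha, ← Equiv.Perm.mul_apply, ← pow_succ', pow_succ, Equiv.Perm.mul_apply, hha]
    have : x - δ - 2 + δ = x - 2 := by ring
    rw [this, hs (x - 2) (Or.inl (by linarith))]

theorem deriv_affine {f : ℝ → ℝ} (hf : Differentiable ℝ f) (k c δ : ℝ) :
    deriv (fun z => k * f (c + δ * z)) = fun z => (k * δ) * deriv f (c + δ * z) := by
  funext x
  have h1 : HasDerivAt (fun x : ℝ => c + δ * x) δ x := by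
    simpa using ((hasDerivAt_id x).const_mul δ).const_add c
  have h2 := ((hf (c + δ * x)).hasDerivAt.comp x h1).const_mul k
  have h3 := h2.deriv
  have h4 : deriv (fun z => k * f (c + δ * z)) x = k * (deriv f (c + δ * x) * δ) := h3
  rw [h4]; ring

theorem exists_corr : ∃ K : ℝ, 1 ≤ K ∧ ∀ (n : ℕ) (M : ℝ) (α : ℝ → ℝ), 8 ≤ n →
    CBs univ 4 M α → (∀ x ∈ Icc (9 / 8 : ℝ) 2, α x = α (x - 1 / n)) →
    ∃ (m : ℝ) (ρ κ : ℝ → ℝ), m = α (3 / 2) ∧ |m| ≤ M ∧ CBs univ 4 (K * M) ρ ∧ (∀ x ≤ 3 / 2, m + ρ x = α x) ∧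
      (∀ x : ℝ, 3 / 2 + 1 / (n : ℝ) ≤ x → ρ x = 0) ∧ (∀ x ≤ 3 / 2, κ x = 0) ∧
      (∀ x : ℝ, 3 / 2 + 2 * (1 / (n : ℝ)) ≤ x → κ x = 0) ∧
      (∀ x ∈ Icc (3 / 2 : ℝ) (3 / 2 + 2 * (1 / n)), m + ρ (x - 1 / n) = m + ρ x + κ x) ∧
      CBs univ 4 (K * (M / n ^ 3)) (fun z => κ (3 / 2 + 2 * (1 / n) * z) / (2 * (1 / n))) := by
  obtain ⟨Cχ, hCχ, hχ⟩ := exists_cutoff_bound 4
  refine ⟨2 ^ 25 * Cχ, by nlinarith, fun n M α hn hα hper => ?_⟩
  obtain ⟨δ, hδ⟩ : ∃ δ : ℝ, δ = 1 / n := ⟨_, rfl⟩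
  rw [← hδ] at hper ⊢
  have hn8 : (8 : ℝ) ≤ n := by exact_mod_cast hn
  have hn0 : (0 : ℝ) < n := by linarith
  have hδ0 : 0 < δ := by rw [hδ]; positivity
  have hδ8 : δ ≤ 1 / 8 := by
    rw [hδ]; exact one_div_le_one_div_of_le (by norm_num) hn8
  have hnδ : (n : ℝ) * δ = 1 := by rw [hδ]; field_simp
  have hM0 : 0 ≤ M := hα.zero_le_of_univ
  obtain ⟨S, hS⟩ : ∃ S : ℝ → ℝ, S = Real.smoothTransition := ⟨_, rfl⟩
  rw [← hS] at hχ
  set m := α (3 / 2) with hm
  have hmM : |m| ≤ M := hα.bound _ trivial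
  set αt : ℝ → ℝ := fun x => α x - m with hαt
  have hαtC : CBs univ 4 (2 * M) αt := by
    have := hα.sub (CBs.const (B := univ) (n := 4) m)
    exact this.mono (by linarith)
  have hdαt : deriv αt = deriv α := by
    funext x
    show deriv (fun x => α x - m) x = _
    rw [deriv_sub_const]
  set P : ℝ → ℝ := fun z => (1 / δ) * αt (3 / 2 + δ * z) with hP
  have hαt1 := hαtC.diff
  have hd1 : Differentiable ℝ (deriv αt) := hαtC.2.2.diff
  have hd2 : Differentiable ℝ (deriv (deriv αt)) := hαtC.2.2.2.2.diff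
  have hd3 : Differentiable ℝ (deriv (deriv (deriv αt))) := hαtC.2.2.2.2.2.2.diff
  have hd4 : ∀ x, |deriv (deriv (deriv (deriv αt))) x| ≤ M := by
    intro x
    rw [hdαt]
    exact hα.2.2.2.2.2.2.2.2 x trivial
  have e1 : deriv P = fun z => (1 / δ * δ) * deriv αt (3 / 2 + δ * z) := deriv_affine hαt1 _ _ _
  have e2 : deriv (deriv P) = fun z => (1 / δ * δ * δ) * deriv (deriv αt) (3 / 2 + δ * z) := by
    rw [e1]; exact deriv_affine hd1 _ _ _
  have e3 : deriv (deriv (deriv P)) =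
      fun z => (1 / δ * δ * δ * δ) * deriv (deriv (deriv αt)) (3 / 2 + δ * z) := by
    rw [e2]; exact deriv_affine hd2 _ _ _
  have e4 : deriv (deriv (deriv (deriv P))) =
      fun z => (1 / δ * δ * δ * δ * δ) * deriv (deriv (deriv (deriv αt))) (3 / 2 + δ * z) := by
    rw [e3]; exact deriv_affine hd3 _ _ _
  have haff : Differentiable ℝ (fun z : ℝ => 3 / 2 + δ * z) := by fun_prop
  have hP0 : Differentiable ℝ P := (hαt1.comp haff).const_mul _
  have hP1 : Differentiable ℝ (deriv P) := by rw [e1]; exact (hd1.comp haff).const_mul _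
  have hP2 : Differentiable ℝ (deriv (deriv P)) := by rw [e2]; exact (hd2.comp haff).const_mul _
  have hP3 : Differentiable ℝ (deriv (deriv (deriv P))) := by
    rw [e3]; exact (hd3.comp haff).const_mul _
  have hk : 1 / δ * δ * δ * δ * δ = δ ^ 3 := by field_simp
  have hP4 : ∀ z, |deriv (deriv (deriv (deriv P))) z| ≤ δ ^ 3 * M := by
    intro z
    rw [e4, hk, abs_mul, abs_of_pos (by positivity)]
    exact mul_le_mul_of_nonneg_left (hd4 _) (by positivity)
  -- zeros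
  have z0 : αt (3 / 2) = 0 := by simp [hαt, hm]
  have zz : ∀ x ∈ Icc (9 / 8 : ℝ) 2, αt x = αt (x - δ) := fun x hx => by
    simp only [hαt]; rw [hper x hx]
  have z1 : αt (3 / 2 + δ) = 0 := by
    rw [zz _ ⟨by linarith, by linarith⟩, show 3 / 2 + δ - δ = 3 / 2 by ring, z0]
  have z2 : αt (3 / 2 + δ * 2) = 0 := by
    rw [zz _ ⟨by linarith, by linarith⟩, show 3 / 2 + δ * 2 - δ = 3 / 2 + δ by ring, z1]
  have z3 : αt (3 / 2 + δ * 3) = 0 := by
    rw [zz _ ⟨by linarith, by linarith⟩, show 3 / 2 + δ * 3 - δ = 3 / 2 + δ * 2 by ring, z2]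
  have hPC : CBs (Icc (-4) 4) 4 (4096 * (δ ^ 3 * M)) P := by
    apply rolle4 hP0 hP1 hP2 hP3 hP4
    · simp [hP, z0]
    · simp [hP, z1]
    · simp [hP, z2]
    · simp [hP, z3]
  have hPper : ∀ z ∈ Icc (0 : ℝ) 2, P (z - 1) = P z := by
    intro z hz
    simp only [hP]
    rw [zz (3 / 2 + δ * z) ⟨by nlinarith [hz.1], by nlinarith [hz.2]⟩]
    congr 2; ring
  have hδM : 0 ≤ δ ^ 3 * M := by positivity
  -- cutoffs
  have hS1 : CBs univ 4 Cχ (fun z => S (1 + (-1) * z)) := by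
    exact ((hχ.affine (by linarith) 1 (-1) 1 le_rfl (by simp)).subset
      (fun x _ => trivial)).mono (by simp)
  have hS2 : CBs univ 4 Cχ (fun z => S (2 + (-1) * z)) := by
    exact ((hχ.affine (by linarith) 2 (-1) 1 le_rfl (by simp)).subset
      (fun x _ => trivial)).mono (by simp)
  set Q : ℝ → ℝ := fun z => S (1 + (-1) * z) * P z with hQ
  have hQC : CBs (Icc (-4) 4) 4 (2 ^ 4 * (Cχ * (4096 * (δ ^ 3 * M)))) Q :=
    (hS1.subset (subset_univ _)).mul hPC (by linarith) (by positivity)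
  set G : ℝ → ℝ := fun z => (S (2 + (-1) * z) - S (1 + (-1) * z)) * P z with hG
  have hGC : CBs (Icc (-4) 4) 4 (2 ^ 4 * ((Cχ + Cχ) * (4096 * (δ ^ 3 * M)))) G :=
    ((hS2.sub hS1).subset (subset_univ _)).mul hPC (by linarith) (by positivity)
  have hQleft : ∀ z ≤ 0, Q z = P z := by
    intro z hz
    simp only [hQ, hS]
    rw [Real.smoothTransition.one_of_one_le (by linarith), one_mul]
  have hQright : ∀ z, 1 ≤ z → Q z = 0 := by
    intro z hz
    simp only [hQ, hS]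
    rw [Real.smoothTransition.zero_of_nonpos (by linarith), zero_mul]
  have hGleft : ∀ z ≤ 0, G z = 0 := by
    intro z hz
    simp only [hG, hS]
    rw [Real.smoothTransition.one_of_one_le (by linarith),
      Real.smoothTransition.one_of_one_le (by linarith), sub_self, zero_mul]
  have hGright : ∀ z, 2 ≤ z → G z = 0 := by
    intro z hz
    simp only [hG, hS]
    rw [Real.smoothTransition.zero_of_nonpos (by linarith),
      Real.smoothTransition.zero_of_nonpos (by linarith), sub_self, zero_mul]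
  set ρ : ℝ → ℝ := fun x => δ * Q (-(3 / 2) / δ + (1 / δ) * x) with hρ
  have hzx : ∀ x, -(3 / 2) / δ + (1 / δ) * x = (x - 3 / 2) / δ := fun x => by
    field_simp; ring
  have hρleft : ∀ x ≤ 3 / 2, ρ x = αt x := by
    intro x hx
    simp only [hρ]
    rw [hzx, hQleft _ (by apply div_nonpos_of_nonpos_of_nonneg <;> linarith)]
    simp only [hP]
    rw [show 3 / 2 + δ * ((x - 3 / 2) / δ) = x by field_simp; ring]
    field_simp
  have hρright : ∀ x, 3 / 2 + δ ≤ x → ρ x = 0 := by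
    intro x hx
    simp only [hρ]
    rw [hzx, hQright _ (by rw [le_div_iff₀ hδ0]; linarith), mul_zero]
  have hkn : |1 / δ| ≤ (n : ℝ) := by
    rw [abs_of_pos (by positivity), hδ]; simp
  have hpow : δ * ((n : ℝ) ^ 4 * (2 ^ 4 * (Cχ * (4096 * (δ ^ 3 * M))))) = 65536 * Cχ * M := by
    have : δ * (n : ℝ) ^ 4 * δ ^ 3 = 1 := by
      have : δ * (n : ℝ) ^ 4 * δ ^ 3 = (n * δ) ^ 4 := by ring
      rw [this, hnδ]; norm_num
    calc δ * ((n : ℝ) ^ 4 * (2 ^ 4 * (Cχ * (4096 * (δ ^ 3 * M)))))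
        = (δ * (n : ℝ) ^ 4 * δ ^ 3) * (65536 * Cχ * M) := by ring
      _ = _ := by rw [this, one_mul]
  have hρmid : CBs (Icc (3 / 2 - δ) (3 / 2 + 2 * δ)) 4 (65536 * Cχ * M) ρ := by
    have h1 := (hQC.affine (by positivity) (-(3 / 2) / δ) (1 / δ) n (by linarith) hkn).const_mul δ
    rw [abs_of_pos hδ0, hpow] at h1
    refine h1.subset fun x hx => ?_
    show -(3 / 2) / δ + 1 / δ * x ∈ Icc (-4 : ℝ) 4
    rw [hzx]
    constructor
    · rw [le_div_iff₀ hδ0]; nlinarith [hx.1]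
    · rw [div_le_iff₀ hδ0]; nlinarith [hx.2]
  have hC0 : 0 < Cχ := by linarith
  have hρC : CBs univ 4 (2 ^ 25 * Cχ * M) ρ := by
    have hbig : 65536 * Cχ * M ≤ 2 ^ 25 * Cχ * M := by
      have : 0 ≤ Cχ * M := by positivity
      nlinarith
    have hbig2 : 2 * M ≤ 2 ^ 25 * Cχ * M := by nlinarith
    have hmid := hρmid.mono hbig
    have hl : CBs (Iio (3 / 2)) 4 (2 ^ 25 * Cχ * M) ρ :=
      ((hαtC.mono hbig2).subset (subset_univ _)).congr_open isOpen_Iio
        (fun x hx => (hρleft x (le_of_lt hx)).symm) (hmid.subset (empty_subset _))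
    have hr : CBs (Ioi (3 / 2 + δ)) 4 (2 ^ 25 * Cχ * M) ρ := by
      have h0 : CBs (Ioi (3 / 2 + δ)) 4 (2 ^ 25 * Cχ * M) (fun _ => (0 : ℝ)) :=
        (CBs.const 0).mono (by rw [abs_zero]; positivity)
      exact h0.congr_open isOpen_Ioi
        (fun x hx => (hρright x (le_of_lt hx)).symm) (hmid.subset (empty_subset _))
    refine ((hl.union hmid).union hr).subset fun x _ => ?_
    rcases lt_or_ge x (3 / 2) with h1 | h1
    · exact Or.inl (Or.inl h1)
    rcases lt_or_ge (3 / 2 + δ) x with h2 | h2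
    · exact Or.inr h2
    · exact Or.inl (Or.inr ⟨by linarith, by linarith⟩)
  set κ : ℝ → ℝ := fun x => δ * G ((x - 3 / 2) / δ) with hκ
  refine ⟨m, ρ, κ, rfl, hmM, hρC, ?_, hρright, ?_, ?_, ?_, ?_⟩
  · intro x hx
    rw [hρleft x hx]; simp only [hαt]; ring
  · intro x hx
    simp only [hκ]
    rw [hGleft _ (by apply div_nonpos_of_nonpos_of_nonneg <;> linarith), mul_zero]
  · intro x hx
    simp only [hκ]
    rw [hGright _ (by rw [le_div_iff₀ hδ0]; linarith), mul_zero]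
  · intro x hx
    simp only [hκ, hρ]
    rw [hzx, hzx]
    set z := (x - 3 / 2) / δ with hz
    have h1 : (x - δ - 3 / 2) / δ = z - 1 := by rw [hz]; field_simp; ring
    have h2 : z ∈ Icc (0 : ℝ) 2 := by
      constructor
      · apply div_nonneg <;> linarith [hx.1]
      · rw [hz, div_le_iff₀ hδ0]; linarith [hx.2]
    rw [h1]
    simp only [hQ, hG]
    rw [hPper z h2, show 1 + -1 * (z - 1) = 2 + -1 * z by ring]
    ring
  · have h1 := (hGC.affine (by positivity) 0 2 2 (by norm_num) (by norm_num)).const_mul (1 / 2)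
    have h2 : (fun z => κ (3 / 2 + 2 * δ * z) / (2 * δ)) = fun z => 1 / 2 * G (0 + 2 * z) := by
      funext z
      simp only [hκ]
      have : (3 / 2 + 2 * δ * z - 3 / 2) / δ = 0 + 2 * z := by field_simp; ring
      rw [this]; field_simp
    rw [h2]
    have h3 : CBs (Icc 0 1) 4 (2 ^ 25 * Cχ * (M / n ^ 3)) (fun z => 1 / 2 * G (0 + 2 * z)) := by
      refine (h1.mono ?_).subset fun z hz => ?_
      · have h4 : M / (n : ℝ) ^ 3 = δ ^ 3 * M := by rw [hδ]; field_simp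
        rw [h4, abs_of_pos (by norm_num : (0 : ℝ) < 1 / 2)]
        have : 0 ≤ Cχ * (δ ^ 3 * M) := by positivity
        nlinarith
      · show 0 + 2 * z ∈ Icc (-4 : ℝ) 4
        constructor <;> linarith [hz.1, hz.2]
    refine h3.of_zero isClosed_Icc (fun z hz => ?_) (by positivity)
    rw [mem_Icc, not_and_or, not_le, not_le] at hz
    rcases hz with hz | hz
    · rw [hGleft _ (by linarith), mul_zero]
    · rw [hGright _ (by linarith), mul_zero]

end Pool.Agent.Germ.H37
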