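import Pool.Agent.Helper37.Germ.CB

/-!
Auxiliary facts for the rolling lemma: compositions of many small maps, Rolle estimates,
cutoff functions, diffeomorphisms close to the identity.
-/

open Filter Topology Set

namespace Pool.Agent.Germ.H37

/-- composition of `N` small maps -/
theorem compL (r : ℕ) : ∃ C c : ℝ, 1 ≤ C ∧ 0 < c ∧ ∀ (e : ℝ) (N : ℕ) (φ : ℕ → ℝ → ℝ)
    (F : ℕ → ℝ → ℝ), 0 ≤ e → N * e ≤ c → (∀ j, CBs univ r e (φ j)) → (∀ x, F 0 x = x) →
    (∀ j x, F (j + 1) x = F j x + φ j (F j x)) →
    ∀ j ≤ N, CBs univ r (C * (j * e)) (fun x => F j x - x) := by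
  induction r with
  | zero =>
    refine ⟨1, 1, le_rfl, one_pos, fun e N φ F he _ hφ h0 hs j _ => ?_⟩
    clear * - hφ h0 hs he
    induction j with
    | zero => intro x _; simp [h0]
    | succ j ih =>
      intro x _
      have h1 := ih x trivial
      have h2 := hφ j (F j x) trivial
      simp only at h1
      show |F (j + 1) x - x| ≤ _
      rw [hs]
      have : F j x + φ j (F j x) - x = (F j x - x) + φ j (F j x) := by ring
      rw [this]
      refine (abs_add_le _ _).trans ?_
      push_cast
      linarith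
  | succ r ih =>
    obtain ⟨C, c, hC, hc, H⟩ := ih
    set k := cc 2 r with hk
    have hk1 : 1 ≤ k := one_le_cc (by norm_num) r
    have h2r : (1 : ℝ) ≤ 2 ^ r := one_le_pow₀ (by norm_num)
    refine ⟨2 * k, min c (min (1 / C) (1 / (2 ^ r * 2 * k))), by linarith, by positivity, ?_⟩
    intro e N φ F he hNe hφ h0 hs
    have hc1 : N * e ≤ c := hNe.trans (min_le_left _ _)
    have hc2 : N * e ≤ 1 / C := hNe.trans ((min_le_right _ _).trans (min_le_left _ _))
    have hc3 : N * e ≤ 1 / (2 ^ r * 2 * k) :=
      hNe.trans ((min_le_right _ _).trans (min_le_right _ _))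
    have HH := H e N φ F he hc1 (fun j => (hφ j).pred) h0 hs
    have hFd : ∀ j, Differentiable ℝ (F j) := by
      intro j
      induction j with
      | zero =>
        have : F 0 = fun x => x := funext h0
        rw [this]; exact differentiable_id
      | succ j ihj =>
        have : F (j + 1) = fun x => F j x + φ j (F j x) := funext (hs j)
        rw [this]
        exact ihj.add ((hφ j).diff.comp ihj)
    have hD : ∀ j ≤ N, DBs univ r 2 (F j) := by
      intro j hj
      have h1 := HH j hj
      cases r with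
      | zero => trivial
      | succ r' =>
        refine ⟨hFd j, ?_⟩
        have h2 : deriv (fun x => F j x - x) = fun x => deriv (F j) x - 1 := by
          funext x
          rw [deriv_fun_sub (hFd j x) differentiableAt_fun_id]
          simp
        have h3 := h1.2.2
        rw [h2] at h3
        have h4 := h3.add (CBs.const (B := univ) (n := r') 1)
        have h5 : (fun x => deriv (F j) x - 1 + 1) = deriv (F j) := by funext x; ring
        rw [h5] at h4
        refine h4.mono ?_
        rw [abs_one]
        have h6 : C * (j * e) ≤ 1 := by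
          have : (j : ℝ) * e ≤ N * e := by gcongr
          calc C * (j * e) ≤ C * (1 / C) := by gcongr; exact this.trans hc2
            _ = 1 := by field_simp
        linarith
    have hP : ∀ j ≤ N, CBs univ r (2 * (j * (k * e))) (fun x => deriv (F j) x - 1) := by
      intro j hj
      induction j with
      | zero =>
        have h1 : (fun x => deriv (F 0) x - 1) = fun _ => (0 : ℝ) := by
          have : F 0 = fun x => x := funext h0
          funext x; rw [this]; simp
        rw [h1]
        have := CBs.const (B := univ) (n := r) 0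
        simpa using this
      | succ j ihj =>
        have h1 := ihj (by omega)
        have h2 : CBs univ r (k * e) (fun x => deriv (φ j) (F j x)) :=
          (hφ j).2.2.comp (B := univ) (by norm_num) he (hD j (by omega)) (fun x _ => trivial)
        have h3 : (fun x => deriv (F (j + 1)) x - 1) = fun x =>
            (deriv (F j) x - 1) + ((deriv (F j) x - 1) * deriv (φ j) (F j x)
              + deriv (φ j) (F j x)) := by
          have : F (j + 1) = fun x => F j x + φ j (F j x) := funext (hs j)
          funext x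
          rw [this]
          have h4 : deriv (fun x => F j x + φ j (F j x)) x
              = deriv (F j) x + deriv (φ j) (F j x) * deriv (F j) x :=
            ((hFd j x).hasDerivAt.add
              (((hφ j).diff (F j x)).hasDerivAt.comp x (hFd j x).hasDerivAt)).deriv
          rw [h4]; ring
        rw [h3]
        have hke : 0 ≤ k * e := by positivity
        have h5 := h1.add ((h1.mul h2 (by positivity) hke).add h2)
        refine h5.mono ?_
        have h6 : 2 ^ r * (2 * (j * (k * e))) ≤ 1 := by
          have h7 : (j : ℝ) * e ≤ N * e := by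
            have : (j : ℝ) ≤ N := by exact_mod_cast (by omega : j ≤ N)
            gcongr
          calc 2 ^ r * (2 * (j * (k * e))) = (2 ^ r * 2 * k) * (j * e) := by ring
            _ ≤ (2 ^ r * 2 * k) * (1 / (2 ^ r * 2 * k)) := by
                gcongr; exact h7.trans hc3
            _ = 1 := by field_simp
        have h8 : 2 ^ r * (2 * (j * (k * e)) * (k * e)) ≤ k * e := by
          calc 2 ^ r * (2 * (j * (k * e)) * (k * e)) = (2 ^ r * (2 * (j * (k * e)))) * (k * e) := by
                ring
            _ ≤ 1 * (k * e) := by gcongr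
            _ = k * e := one_mul _
        push_cast
        linarith
    intro j hj
    refine ⟨fun x _ => ?_, (hFd j).sub differentiable_id, ?_⟩
    · -- zero order bound
      have h1 : ∀ j, ∀ x, |F j x - x| ≤ j * e := by
        intro j
        induction j with
        | zero => intro x; simp [h0]
        | succ j ihj =>
          intro x
          have h1 := ihj x
          have h2 := (hφ j).bound (F j x) trivial
          rw [hs]
          have : F j x + φ j (F j x) - x = (F j x - x) + φ j (F j x) := by ring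
          rw [this]
          refine (abs_add_le _ _).trans ?_
          push_cast
          linarith
      refine (h1 j x).trans ?_
      have : 0 ≤ (j : ℝ) * e := by positivity
      nlinarith
    · have h2 : deriv (fun x => F j x - x) = fun x => deriv (F j) x - 1 := by
        funext x
        rw [deriv_fun_sub (hFd j x) differentiableAt_fun_id]
        simp
      rw [h2]
      refine (hP j hj).mono (le_of_eq (by ring))

theorem mv_bound {f : ℝ → ℝ} {K ξ : ℝ} (hf : Differentiable ℝ f)
    (hK : ∀ x ∈ Icc (-4 : ℝ) 4, |deriv f x| ≤ K) (hξ : ξ ∈ Icc (-4 : ℝ) 4) (h0 : f ξ = 0) :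
    ∀ x ∈ Icc (-4 : ℝ) 4, |f x| ≤ 8 * K := by
  intro x hx
  have h1 := (convex_Icc (-4 : ℝ) 4).norm_image_sub_le_of_norm_deriv_le
    (fun y _ => hf y) (fun y hy => by rw [Real.norm_eq_abs]; exact hK y hy) hξ hx
  rw [h0, sub_zero, Real.norm_eq_abs, Real.norm_eq_abs] at h1
  have hK0 : 0 ≤ K := (abs_nonneg _).trans (hK x hx)
  have h2 : |x - ξ| ≤ 8 := by
    rw [abs_le]; constructor <;> linarith [hx.1, hx.2, hξ.1, hξ.2]
  calc |f x| ≤ K * |x - ξ| := h1
    _ ≤ K * 8 := by gcongr
    _ = 8 * K := by ring

theorem rolle4 {f : ℝ → ℝ} {M : ℝ} (hf : Differentiable ℝ f) (hf1 : Differentiable ℝ (deriv f))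
    (hf2 : Differentiable ℝ (deriv (deriv f))) (hf3 : Differentiable ℝ (deriv (deriv (deriv f))))
    (hM : ∀ x, |deriv (deriv (deriv (deriv f))) x| ≤ M) (h0 : f 0 = 0) (h1 : f 1 = 0)
    (h2 : f 2 = 0) (h3 : f 3 = 0) : CBs (Icc (-4) 4) 4 (4096 * M) f := by
  have hM0 : 0 ≤ M := (abs_nonneg _).trans (hM 0)
  obtain ⟨q0, hq0, hq0'⟩ := exists_deriv_eq_zero (show (0 : ℝ) < 1 by norm_num)
    hf.continuous.continuousOn (h0.trans h1.symm)
  obtain ⟨q1, hq1, hq1'⟩ := exists_deriv_eq_zero (show (1 : ℝ) < 2 by norm_num)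
    hf.continuous.continuousOn (h1.trans h2.symm)
  obtain ⟨q2, hq2, hq2'⟩ := exists_deriv_eq_zero (show (2 : ℝ) < 3 by norm_num)
    hf.continuous.continuousOn (h2.trans h3.symm)
  obtain ⟨r0, hr0, hr0'⟩ := exists_deriv_eq_zero (show q0 < q1 by linarith [hq0.2, hq1.1])
    hf1.continuous.continuousOn (hq0'.trans hq1'.symm)
  obtain ⟨r1, hr1, hr1'⟩ := exists_deriv_eq_zero (show q1 < q2 by linarith [hq1.2, hq2.1])
    hf1.continuous.continuousOn (hq1'.trans hq2'.symm)
  obtain ⟨s0, hs0, hs0'⟩ := exists_deriv_eq_zero (show r0 < r1 by linarith [hr0.2, hr1.1])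
    hf2.continuous.continuousOn (hr0'.trans hr1'.symm)
  have mem : ∀ ξ, 0 ≤ ξ → ξ ≤ 3 → ξ ∈ Icc (-4 : ℝ) 4 := fun ξ h h' =>
    ⟨by linarith, by linarith⟩
  have b3 := mv_bound hf3 (fun x _ => hM x)
    (mem s0 (by linarith [hs0.1, hr0.1, hq0.1]) (by linarith [hs0.2, hr1.2, hq2.2])) hs0'
  have b2 := mv_bound hf2 b3
    (mem r0 (by linarith [hr0.1, hq0.1]) (by linarith [hr0.2, hq1.2])) hr0'
  have b1 := mv_bound hf1 b2
    (mem q0 (by linarith [hq0.1]) (by linarith [hq0.2])) hq0'
  have b0 := mv_bound hf b1 (mem 0 le_rfl (by norm_num)) h0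
  refine ⟨fun x hx => (b0 x hx).trans (by linarith), hf,
    fun x hx => (b1 x hx).trans (by linarith), hf1,
    fun x hx => (b2 x hx).trans (by linarith), hf2,
    fun x hx => (b3 x hx).trans (by linarith), hf3, fun x _ => (hM x).trans (by linarith)⟩

theorem exists_CBs_of_const {n : ℕ} {f : ℝ → ℝ} (hf : ContDiff ℝ n f) {c0 c1 R : ℝ}
    (h0 : ∀ x ≤ -R, f x = c0) (h1 : ∀ x, R ≤ x → f x = c1) : ∃ C, CBs univ n C f := by
  have hb : ∀ (f : ℝ → ℝ) (hf : Continuous f) (c0 c1 R : ℝ) (h0 : ∀ x ≤ -R, f x = c0)
      (h1 : ∀ x, R ≤ x → f x = c1), ∃ C, ∀ x, |f x| ≤ C := by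
    intro f hf c0 c1 R h0 h1
    obtain ⟨C, hC⟩ := (isCompact_Icc (a := -R) (b := R)).exists_bound_of_continuousOn
      hf.continuousOn
    refine ⟨max C (max |c0| |c1|), fun x => ?_⟩
    rcases le_total x (-R) with hx | hx
    · rw [h0 x hx]; exact (le_max_left _ _).trans (le_max_right _ _)
    rcases le_total R x with hx' | hx'
    · rw [h1 x hx']; exact (le_max_right _ _).trans (le_max_right _ _)
    exact (hC x ⟨hx, hx'⟩).trans (le_max_left _ _)
  induction n generalizing f c0 c1 R with
  | zero =>
    obtain ⟨C, hC⟩ := hb f hf.continuous c0 c1 R h0 h1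
    exact ⟨C, fun x _ => hC x⟩
  | succ n ih =>
    obtain ⟨C, hC⟩ := hb f hf.continuous c0 c1 R h0 h1
    have hf' : ContDiff ℝ ((n : WithTop ℕ∞) + 1) f := by exact_mod_cast hf
    obtain ⟨hd, -, hf2⟩ := contDiff_succ_iff_deriv.1 hf'
    obtain ⟨C', hC'⟩ := ih (f := deriv f) hf2 (c0 := 0) (c1 := 0) (R := R + 1)
      (fun x hx => by
        have : f =ᶠ[𝓝 x] fun _ => c0 := by
          filter_upwards [Iio_mem_nhds (show x < -R by linarith)] with y hy using h0 y (le_of_lt hy)
        rw [this.deriv_eq]; simp)
      (fun x hx => by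
        have : f =ᶠ[𝓝 x] fun _ => c1 := by
          filter_upwards [Ioi_mem_nhds (show R < x by linarith)] with y hy using h1 y (le_of_lt hy)
        rw [this.deriv_eq]; simp)
    exact ⟨max C C', fun x _ => (hC x).trans (le_max_left _ _), hd, hC'.mono (le_max_right _ _)⟩

theorem exists_cutoff_bound (n : ℕ) : ∃ C, 1 ≤ C ∧ CBs univ n C Real.smoothTransition := by
  obtain ⟨C, hC⟩ := exists_CBs_of_const (n := n) (f := Real.smoothTransition)
    Real.smoothTransition.contDiff (c0 := 0) (c1 := 1) (R := 1)
    (fun x hx => Real.smoothTransition.zero_of_nonpos (by linarith))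
    (fun x hx => Real.smoothTransition.one_of_one_le hx)
  exact ⟨max C 1, le_max_right _ _, hC.mono (le_max_left _ _)⟩

/-! ### Diffeomorphisms close to the identity -/

theorem strictMono_of_near {f : ℝ → ℝ} (h : ∀ x, |deriv f x - 1| ≤ 1 / 2) : StrictMono f := by
  apply strictMono_of_deriv_pos
  intro x
  have := (abs_le.1 (h x)).1
  linarith

theorem surj_of_near {f : ℝ → ℝ} (hf : Differentiable ℝ f) (h : ∀ x, |deriv f x - 1| ≤ 1 / 2) :
    Function.Surjective f := by
  have h1 : ∀ x y, x ≤ y → (y - x) / 2 ≤ f y - f x := by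
    intro x y hxy
    have hm : Monotone (fun z => f z - z / 2) := by
      refine monotone_of_deriv_nonneg (f := fun z => f z - z / 2)
        (hf.sub (differentiable_id.div_const 2)) (fun z => ?_)
      have h2 : deriv (fun z => f z - z / 2) z = deriv f z - 1 / 2 := by
        rw [deriv_fun_sub (hf z) (by fun_prop)]
        simp
      rw [h2]
      have := (abs_le.1 (h z)).1
      linarith
    have := hm hxy
    simp only at this
    linarith
  intro y
  have hc := hf.continuous
  set R := 2 * |y - f 0| with hR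
  have hR0 : 0 ≤ R := by positivity
  have h2 := h1 0 R hR0
  have h3 := h1 (-R) 0 (by linarith)
  have h4 : f (-R) ≤ y := by
    have := neg_abs_le (y - f 0)
    linarith
  have h5 : y ≤ f R := by
    have := le_abs_self (y - f 0)
    linarith
  obtain ⟨x, -, hx⟩ := intermediate_value_Icc (show -R ≤ R by linarith) hc.continuousOn ⟨h4, h5⟩
  exact ⟨x, hx⟩

/-- the permutation given by a map close to the identity -/
noncomputable def permOf (f : ℝ → ℝ) (hf : Differentiable ℝ f)
    (h : ∀ x, |deriv f x - 1| ≤ 1 / 2) : Equiv.Perm ℝ :=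
  ((strictMono_of_near h).orderIsoOfSurjective f (surj_of_near hf h)).toEquiv

theorem permOf_apply (f : ℝ → ℝ) (hf : Differentiable ℝ f)
    (h : ∀ x, |deriv f x - 1| ≤ 1 / 2) (x : ℝ) : permOf f hf h x = f x := rfl

theorem permOf_symm_continuous (f : ℝ → ℝ) (hf : Differentiable ℝ f)
    (h : ∀ x, |deriv f x - 1| ≤ 1 / 2) : Continuous (permOf f hf h).symm :=
  ((strictMono_of_near h).orderIsoOfSurjective f (surj_of_near hf h)).symm.continuous

end Pool.Agent.Germ.H37
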