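import Pool.Agent.Helper37.Germ.RollA

/-!
The rolling lemma (R3 of the blueprint for MP_91c48b_an).
-/

open Filter Topology Set

namespace Pool.Agent.Germ

namespace H37

section Trans

variable {A0 A1 B0 B1 Cθ : ℝ} {θ : ℝ → Equiv.Perm ℝ}

theorem theta_zero (h : TransFam A0 A1 B0 B1 Cθ θ) : θ 0 = 1 := by
  have := h.add 0 0
  rw [add_zero] at this
  exact (mul_eq_left (a := θ 0) (b := θ 0)).1 this.symm

theorem theta_neg (h : TransFam A0 A1 B0 B1 Cθ θ) (t : ℝ) : (θ t)⁻¹ = θ (-t) := by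
  have := h.add t (-t)
  rw [add_neg_cancel, theta_zero h] at this
  exact inv_eq_of_mul_eq_one_right this.symm

theorem theta_nsmul (h : TransFam A0 A1 B0 B1 Cθ θ) (t : ℝ) (N : ℕ) :
    θ (N * t) = (θ t) ^ N := by
  induction N with
  | zero => simp [theta_zero h]
  | succ N ih =>
    rw [pow_succ, ← ih, ← h.add]
    congr 1; push_cast; ring

theorem strictMono_pow {f : Equiv.Perm ℝ} (hf : StrictMono f) (N : ℕ) :
    StrictMono (f ^ N : Equiv.Perm ℝ) := by
  induction N with
  | zero => intro x y h; simpa using h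
  | succ N ih =>
    intro x y h
    rw [pow_succ, Equiv.Perm.mul_apply, Equiv.Perm.mul_apply]
    exact ih (hf h)

theorem theta_strictMono (h : TransFam A0 A1 B0 B1 Cθ θ) (t : ℝ) : StrictMono (θ t) := by
  obtain ⟨N, hN⟩ := exists_nat_gt (max (|t|) (2 * (|Cθ| * |t|)))
  have hN0 : (0 : ℝ) < N := lt_of_le_of_lt ((abs_nonneg t).trans (le_max_left _ _)) hN
  have h1 : |t| ≤ N := (le_max_left _ _).trans hN.le
  have h2 : 2 * (|Cθ| * |t|) ≤ N := (le_max_right _ _).trans hN.le
  have h3 : t = N * (t / N) := by field_simp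
  rw [h3, theta_nsmul h]
  apply strictMono_pow
  have h4 : |t / N| ≤ 1 := by
    rw [abs_div, Nat.abs_cast, div_le_one hN0]; exact h1
  have h5 := (h.small (t / N) h4).2
  apply strictMono_of_near
  intro x
  refine (h5 x).2.1.trans ?_
  rw [abs_div, Nat.abs_cast, ← mul_div_assoc, div_le_iff₀ hN0]
  have : Cθ * |t| ≤ |Cθ| * |t| := mul_le_mul_of_nonneg_right (le_abs_self _) (abs_nonneg _)
  linarith

end Trans

theorem rolling_core (Cθ : ℝ) : ∃ C c0 : ℝ, 0 < c0 ∧ 1 ≤ C ∧
    ∀ (A0 A1 B0 B1 : ℝ) (θ : ℝ → Equiv.Perm ℝ), TransFam A0 A1 B0 B1 Cθ θ → B0 < A0 → A1 < B1 →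
    A0 ≤ 0 → 3 ≤ A1 →
    ∀ (e : ℝ) (n : ℕ) (s : Equiv.Perm ℝ), 8 ≤ n → 0 ≤ e → n * e ≤ c0 → SuppIn 0 1 s →
      CBs univ 4 e (fun x => s x - x) →
    ∃ (a s' : Equiv.Perm ℝ) (m : ℝ), s = comm a (θ (1 / n)) * s' ∧ SuppIn B0 B1 a ∧
      ContDiff ℝ 2 a ∧
      (∀ x, |a x - x| ≤ C * (n * e) ∧ |deriv a x - 1| ≤ C * (n * e) ∧
        |deriv (deriv a) x| ≤ C * (n * e)) ∧
      |m| ≤ 1 / 8 ∧ SuppIn (3 / 2 + m) (3 / 2 + m + 2 * (1 / n)) s' ∧
      CBs univ 4 (C * e / n ^ 2) (fun z => (s' (3 / 2 + m + 2 * (1 / n) * z)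
        - (3 / 2 + m + 2 * (1 / n) * z)) / (2 * (1 / n))) := by
  obtain ⟨C4, c4, hC4, hc4, HA⟩ := exists_a0
  obtain ⟨K, hK, HB⟩ := exists_corr
  -- constants
  set T : ℝ := |Cθ| + K + 1 with hT
  have hT0 : 0 ≤ |Cθ| := abs_nonneg _
  have hTpos : 0 < T := by linarith
  set L : ℝ := cc (ic 2 4) 4 with hL
  have hL1 : 1 ≤ L := one_le_cc (one_le_ic (by norm_num) 4) 4
  refine ⟨(T + 1) * C4 * L, min c4 (1 / (C4 * (16 * T))), by positivity, ?_, ?_⟩
  · have : 1 ≤ (T + 1) * C4 := by nlinarith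
    nlinarith
  intro A0 A1 B0 B1 θ hθ hB0 hB1 hA0 hA1 e n s hn he hne hs hσ
  have hne4 : n * e ≤ c4 := hne.trans (min_le_left _ _)
  have hneT : n * e ≤ 1 / (C4 * (16 * T)) := hne.trans (min_le_right _ _)
  obtain ⟨a0, ha0C, ha0l, ha0⟩ := HA e n s hn he hne4 hs hσ
  obtain ⟨δ, hδ⟩ : ∃ δ : ℝ, δ = 1 / n := ⟨_, rfl⟩
  rw [← hδ]
  rw [← hδ] at ha0
  have hn8 : (8 : ℝ) ≤ n := by exact_mod_cast hn
  have hn0 : (0 : ℝ) < n := by linarith
  have hδ0 : 0 < δ := by rw [hδ]; positivity
  have hδ8 : δ ≤ 1 / 8 := by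
    rw [hδ]; exact one_div_le_one_div_of_le (by norm_num) hn8
  obtain ⟨M, hM⟩ : ∃ M : ℝ, M = C4 * (n * e) := ⟨_, rfl⟩
  rw [← hM] at ha0C
  have hM0 : 0 ≤ M := by rw [hM]; positivity
  have hMT : M * (16 * T) ≤ 1 := by
    rw [hM]
    have : C4 * (n * e) * (16 * T) = (n * e) * (C4 * (16 * T)) := by ring
    rw [this]
    calc (n * e) * (C4 * (16 * T)) ≤ (1 / (C4 * (16 * T))) * (C4 * (16 * T)) := by gcongr
      _ = 1 := by field_simp
  have hTM : T * M ≤ 1 / 16 := by linarith
  have hCM : |Cθ| * M ≤ 1 / 16 := by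
    have : |Cθ| * M ≤ T * M := by gcongr; linarith
    linarith
  have hKM : K * M ≤ 1 / 16 := by
    have : K * M ≤ T * M := by gcongr; linarith
    linarith
  have hM16 : M ≤ 1 / 16 := by
    have : 1 * M ≤ T * M := by gcongr; linarith
    linarith
  -- periodicity
  have hab : ∀ x, |a0 x - x| ≤ M := fun x => ha0C.bound x trivial
  have hperc : ∀ x ∈ Icc (9 / 8 : ℝ) 2, a0 x = a0 (x - δ) + δ := by
    intro x hx
    rw [ha0 x hx.2]
    apply hs
    right
    have := (abs_le.1 (hab (x - δ))).1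
    linarith [hx.1]
  obtain ⟨m, ρ, κ, hmα, hmM, hρC, hρl, hρr, hκl, hκr, hκm, hκC⟩ := HB n M (fun x => a0 x - x) hn ha0C
    (fun x hx => by
      have := hperc x hx
      rw [← hδ]
      linarith)
  rw [← hδ] at hρr hκr hκm hκC
  have hmM' := abs_le.1 hmM
  -- the map `b`
  set b : ℝ → ℝ := fun x => x + (m + ρ x) with hb
  have hρd : Differentiable ℝ ρ := hρC.diff
  have hbd : Differentiable ℝ b := differentiable_id.add (hρd.const_add m)
  have hdb : deriv b = fun x => 1 + deriv ρ x := by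
    funext x
    have h1 : HasDerivAt b (1 + deriv ρ x) x :=
      (hasDerivAt_id x).add ((hρd x).hasDerivAt.const_add m)
    exact h1.deriv
  have hρ1 : ∀ x, |deriv ρ x| ≤ K * M := fun x => hρC.2.2.bound x trivial
  have hb_near : ∀ x, |deriv b x - 1| ≤ 1 / 2 := by
    intro x
    rw [hdb]
    simp only [add_sub_cancel_left]
    exact (hρ1 x).trans (by linarith)
  have hbl : ∀ x ≤ 3 / 2, b x = a0 x := by
    intro x hx
    simp only [hb]
    rw [hρl x hx]; ring
  have hbr : ∀ x, 3 / 2 + δ ≤ x → b x = x + m := by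
    intro x hx
    simp only [hb]
    rw [hρr x hx]; ring
  have hbC2 : ContDiff ℝ 2 b := by
    have h1 : ContDiff ℝ 2 ρ := (hρC.of_le (m := 3) (by norm_num)).contDiff
    exact contDiff_id.add (contDiff_const.add h1)
  have hb_bd : ∀ x, |b x - x| ≤ T * M := by
    intro x
    have h1 : |ρ x| ≤ K * M := hρC.bound x trivial
    have h2 : b x - x = m + ρ x := by simp only [hb]; ring
    rw [h2]
    refine (abs_add_le _ _).trans ?_
    have : T * M = |Cθ| * M + K * M + M := by rw [hT]; ring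
    have : 0 ≤ |Cθ| * M := by positivity
    linarith
  have hddb : ∀ x, |deriv (deriv b) x| ≤ K * M := by
    intro x
    rw [hdb]
    have : deriv (fun x => 1 + deriv ρ x) x = deriv (deriv ρ) x := by
      rw [deriv_const_add]
    rw [this]
    exact hρC.2.2.2.2.bound x trivial
  -- the map `a`
  set x1 : ℝ := 3 / 2 + 2 * δ with hx1
  set af : ℝ → ℝ := fun x => if x ≤ x1 then b x else θ m x with haf
  have hm1 : |m| ≤ 1 := by linarith
  have hθm := hθ.small m hm1
  have haf_l : ∀ x, x ≤ x1 → af x = b x := fun x hx => if_pos hx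
  have hθmid : ∀ x, 3 / 2 + δ ≤ x → x ≤ x1 → θ m x = x + m := by
    intro x hx hx'
    apply hθ.trans <;> linarith [hmM'.1, hmM'.2]
  have haf_r : ∀ x, 3 / 2 + δ ≤ x → af x = θ m x := by
    intro x hx
    by_cases h : x ≤ x1
    · rw [haf_l x h, hbr x hx, hθmid x hx h]
    · exact if_neg h
  have haf_el : ∀ x, x < x1 → af =ᶠ[𝓝 x] b := by
    intro x hx
    filter_upwards [Iio_mem_nhds hx] with y hy using haf_l y (le_of_lt hy)
  have haf_er : ∀ x, 3 / 2 + δ < x → af =ᶠ[𝓝 x] θ m := by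
    intro x hx
    filter_upwards [Ioi_mem_nhds hx] with y hy using haf_r y (le_of_lt hy)
  have hcase : ∀ x, x < x1 ∨ 3 / 2 + δ < x := by
    intro x
    rcases lt_or_ge x x1 with h | h
    · exact Or.inl h
    · right; linarith
  have haC2 : ContDiff ℝ 2 af := by
    rw [contDiff_iff_contDiffAt]
    intro x
    rcases hcase x with h | h
    · exact hbC2.contDiffAt.congr_of_eventuallyEq (haf_el x h)
    · exact hθm.1.contDiffAt.congr_of_eventuallyEq (haf_er x h)
  have hCθm : Cθ * |m| ≤ T * M := by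
    have h1 : Cθ * |m| ≤ |Cθ| * |m| := mul_le_mul_of_nonneg_right (le_abs_self _) (abs_nonneg _)
    have h2 : |Cθ| * |m| ≤ |Cθ| * M := by gcongr
    have h3 : |Cθ| * M ≤ T * M := by gcongr; linarith
    linarith
  have hKT : K * M ≤ T * M := by gcongr; linarith
  have ha_est : ∀ x, |af x - x| ≤ T * M ∧ |deriv af x - 1| ≤ T * M ∧
      |deriv (deriv af) x| ≤ T * M := by
    intro x
    rcases hcase x with h | h
    · have h1 := haf_el x h
      rw [h1.eq_of_nhds, h1.deriv_eq, h1.deriv.deriv_eq]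
      refine ⟨hb_bd x, ?_, (hddb x).trans hKT⟩
      rw [hdb]
      simp only [add_sub_cancel_left]
      exact (hρ1 x).trans hKT
    · have h1 := haf_er x h
      rw [h1.eq_of_nhds, h1.deriv_eq, h1.deriv.deriv_eq]
      obtain ⟨h2, h3, h4⟩ := hθm.2 x
      exact ⟨h2.trans hCθm, h3.trans hCθm, h4.trans hCθm⟩
  have ha_diff : Differentiable ℝ af := haC2.differentiable (by norm_num)
  have ha_near : ∀ x, |deriv af x - 1| ≤ 1 / 2 := fun x => (ha_est x).2.1.trans (by linarith)
  set A : Equiv.Perm ℝ := permOf af ha_diff ha_near with hA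
  have hAa : ∀ x, A x = af x := fun x => rfl
  have hAm : StrictMono af := strictMono_of_near ha_near
  set Bp : Equiv.Perm ℝ := permOf b hbd hb_near with hBp
  have hBb : ∀ x, Bp x = b x := fun x => rfl
  have hbm : StrictMono b := strictMono_of_near hb_near
  have hBc : Continuous Bp.symm := permOf_symm_continuous b hbd hb_near
  have hθmono := theta_strictMono hθ
  set s' : Equiv.Perm ℝ := (comm A (θ δ))⁻¹ * s with hs'
  have haf0 : ∀ x ≤ 0, af x = x := by
    intro x hx
    rw [haf_l x (by linarith), hbl x (by linarith), ha0l x hx]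
  have hcomm : (comm A (θ δ))⁻¹ = θ δ * A * (θ δ)⁻¹ * A⁻¹ := by
    unfold comm; group
  have hinv : (θ δ)⁻¹ = θ (-δ) := theta_neg hθ δ
  have hs'x : ∀ y, s' y = θ δ (af (θ (-δ) (A.symm (s y)))) := by
    intro y
    rw [hs', hcomm, hinv]
    rfl
  have hb32 : b (3 / 2) = 3 / 2 + m := by
    have h6 : m + ρ (3 / 2) = a0 (3 / 2) - 3 / 2 := hρl _ le_rfl
    simp only [hb]
    rw [h6, hmα]
  have hbx1 : b x1 = x1 + m := hbr x1 (by linarith)
  have hsfix : ∀ y, 1 ≤ y → s y = y := fun y hy => hs y (Or.inr (by linarith))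
  have hskeep : ∀ y, y < 1 → s y < 1 := by
    intro y hy
    by_contra hc
    rw [not_lt] at hc
    have h1 := hsfix (s y) hc
    have h2 := s.injective h1
    linarith
  -- the formula for `s'`
  have key : ∀ y, s' y = y + κ (Bp.symm y) := by
    intro y
    rw [hs'x]
    obtain ⟨x, hx⟩ : ∃ x, x = A.symm (s y) := ⟨_, rfl⟩
    rw [← hx]
    have hax : af x = s y := by
      rw [hx, ← hAa]; exact A.apply_symm_apply _
    rcases le_total y (3 / 2 + m) with hy | hy
    · -- left of the correction zone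
      have hκ0 : κ (Bp.symm y) = 0 := by
        apply hκl
        rw [← hbm.le_iff_le, hb32, ← hBb, Equiv.apply_symm_apply]
        exact hy
      have hsy : s y ≤ 3 / 2 + m := by
        rcases lt_or_ge y 1 with h | h
        · have := hskeep y h
          linarith [hmM'.1]
        · rw [hsfix y h]; exact hy
      have hx32 : x ≤ 3 / 2 := by
        rw [← hAm.le_iff_le, hax, haf_l (3 / 2) (by linarith), hb32]
        exact hsy
      have hax0 : af x = a0 x := by rw [haf_l x (by linarith), hbl x hx32]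
      rw [hκ0, add_zero]
      rcases le_total x δ with hxδ | hxδ
      · have h1 : θ (-δ) δ = 0 := by
          have := hθ.trans (-δ) δ (by linarith) (by linarith) (by linarith) (by linarith)
          rw [this]; ring
        have h2 : θ (-δ) x ≤ 0 := by
          rw [← h1]; exact (hθmono (-δ)).monotone hxδ
        rw [haf0 _ h2]
        have h3 : θ δ (θ (-δ) x) = x := by
          rw [← hinv]; exact (θ δ).apply_symm_apply x
        rw [h3]
        have h4 : s y = s x := by
          rw [← hax, hax0, ha0 x (by linarith), ha0l (x - δ) (by linarith)]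
          congr 1; ring
        exact (s.injective h4).symm
      · have h1 : θ (-δ) x = x - δ := by
          have := hθ.trans (-δ) x (by linarith) (by linarith) (by linarith) (by linarith)
          rw [this]; ring
        have h2 : af (x - δ) = a0 (x - δ) := by
          rw [haf_l _ (by linarith), hbl _ (by linarith)]
        have h3 : 0 ≤ a0 (x - δ) := by
          have h4 := hAm.monotone (show 0 ≤ x - δ by linarith)
          rw [haf0 0 le_rfl, h2] at h4
          exact h4
        have h5 := (abs_le.1 (hab (x - δ))).2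
        rw [h1, h2, hθ.trans δ (a0 (x - δ)) (by linarith) (by linarith) (by linarith)
          (by linarith)]
        have h4 : s y = s (a0 (x - δ) + δ) := by
          rw [← hax, hax0, ha0 x (by linarith)]
        exact (s.injective h4).symm
    · have hy1 : 1 ≤ y := by linarith [hmM'.1]
      have hsy : s y = y := hsfix y hy1
      rw [hsy] at hax
      have hx32 : 3 / 2 ≤ x := by
        rw [← hAm.le_iff_le, hax, haf_l (3 / 2) (by linarith), hb32]
        exact hy
      rcases le_total x x1 with hx' | hx'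
      · have h1 : θ (-δ) x = x - δ := by
          have := hθ.trans (-δ) x (by linarith) (by linarith) (by linarith) (by linarith)
          rw [this]; ring
        have h2 : af (x - δ) = x - δ + (m + ρ (x - δ)) := by
          rw [haf_l _ (by linarith)]
        have h3 := abs_le.1 (hb_bd (x - δ))
        have h3' : b (x - δ) = x - δ + (m + ρ (x - δ)) := rfl
        rw [h3'] at h3
        rw [h1, h2, hθ.trans δ _ (by linarith [h3.1]) (by linarith [h3.2]) (by linarith [h3.1])
          (by linarith [h3.2])]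
        rw [haf_l x hx'] at hax
        have h4 : Bp.symm y = x := by
          rw [Equiv.symm_apply_eq, hBb, hax]
        rw [h4, hκm x ⟨hx32, hx'⟩, ← hax]
        simp only [hb]
        ring
      · have h1 : θ (-δ) x1 = 3 / 2 + δ := by
          have := hθ.trans (-δ) x1 (by linarith) (by linarith) (by linarith) (by linarith)
          rw [this, hx1]; ring
        have h2 : 3 / 2 + δ ≤ θ (-δ) x := by
          rw [← h1]; exact (hθmono (-δ)).monotone hx'
        rw [haf_r _ h2]
        have h3 : θ δ (θ m (θ (-δ) x)) = θ m x := by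
          have : θ δ * θ m * θ (-δ) = θ m := by
            rw [← hθ.add, ← hθ.add]; congr 1; ring
          exact congrArg (fun p : Equiv.Perm ℝ => p x) this
        rw [h3, ← haf_r x (by linarith), hax]
        have hκ0 : κ (Bp.symm y) = 0 := by
          apply hκr
          have : b x1 ≤ b (Bp.symm y) := by
            rw [← hBb (Bp.symm y), Equiv.apply_symm_apply, ← haf_l x1 le_rfl, ← hax]
            exact hAm.monotone hx'
          exact hbm.le_iff_le.1 this
        rw [hκ0, add_zero]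
  refine ⟨A, s', m, ?_, ?_, haC2, ?_, ?_, ?_, ?_⟩
  · rw [hs', mul_inv_cancel_left]
  · intro x hx
    rw [hAa]
    rcases hx with hx | hx
    · exact haf0 x (by linarith)
    · rw [haf_r x (by linarith)]
      exact hθ.supp m x (Or.inr hx)
  · intro x
    obtain ⟨h1, h2, h3⟩ := ha_est x
    have hle : T * M ≤ (T + 1) * C4 * L * (n * e) := by
      rw [hM]
      have h0 : 0 ≤ C4 * (n * e) := by positivity
      have h4 : T ≤ (T + 1) * L := by nlinarith
      calc T * (C4 * (n * e)) ≤ ((T + 1) * L) * (C4 * (n * e)) := by gcongr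
        _ = _ := by ring
    exact ⟨h1.trans hle, h2.trans hle, h3.trans hle⟩
  · linarith
  · intro y hy
    rw [key]
    rcases hy with hy | hy
    · have hκ0 : κ (Bp.symm y) = 0 := by
        apply hκl
        rw [← hbm.le_iff_le, hb32, ← hBb, Equiv.apply_symm_apply]
        exact hy
      rw [hκ0, add_zero]
    · have hκ0 : κ (Bp.symm y) = 0 := by
        apply hκr
        have : b x1 ≤ b (Bp.symm y) := by
          rw [← hBb (Bp.symm y), Equiv.apply_symm_apply, hbx1, hx1]
          linarith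
        exact hbm.le_iff_le.1 this
      rw [hκ0, add_zero]
  · -- the estimate
    have h1 : CBs univ 3 (1 + K * M) (deriv b) := by
      rw [hdb]
      have := (CBs.const (B := univ) (n := 3) 1).add hρC.2.2
      rw [abs_one] at this
      exact this
    have h2 : CBs univ 3 2 (deriv b) := h1.mono (by linarith)
    set bt : ℝ → ℝ := fun z => 1 / (2 * δ) * (b (3 / 2 + 2 * δ * z) - (3 / 2 + m)) with hbt
    have hbtd : Differentiable ℝ bt :=
      ((hbd.comp (by fun_prop : Differentiable ℝ (fun z : ℝ => 3 / 2 + 2 * δ * z))).sub_const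
        _).const_mul _
    have hdbt : deriv bt = fun z => deriv b (3 / 2 + 2 * δ * z) := by
      have hbs : Differentiable ℝ (fun x => b x - (3 / 2 + m)) := hbd.sub_const _
      have h3 := deriv_affine hbs (1 / (2 * δ)) (3 / 2) (2 * δ)
      have h4 : deriv (fun x => b x - (3 / 2 + m)) = deriv b := by
        funext x; rw [deriv_sub_const]
      rw [h4] at h3
      have h5 : deriv bt = fun z => (1 / (2 * δ) * (2 * δ)) * deriv b (3 / 2 + 2 * δ * z) := h3
      rw [h5]
      funext z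
      have : 1 / (2 * δ) * (2 * δ) = 1 := by field_simp
      rw [this, one_mul]
    have hbtD : DBs univ 4 2 bt := by
      refine ⟨hbtd, ?_⟩
      rw [hdbt]
      have := h2.affine (by norm_num) (3 / 2) (2 * δ) 1 le_rfl
        (by rw [abs_of_pos (by positivity)]; linarith)
      exact (this.subset (fun x _ => trivial)).mono (by norm_num)
    set β : ℝ → ℝ := fun z => (Bp.symm (3 / 2 + m + 2 * δ * z) - 3 / 2) / (2 * δ) with hβ
    have hβc : Continuous β := by
      have : Continuous (fun z : ℝ => Bp.symm (3 / 2 + m + 2 * δ * z)) :=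
        hBc.comp (by fun_prop)
      exact (this.sub continuous_const).div_const _
    have hβD : DBs univ 4 (ic 2 4) β := by
      refine hbtD.inverse (by norm_num) hbtd (fun x => ?_) (fun y => ?_) hβc
      · rw [hdbt]
        have := (abs_le.1 (hb_near (3 / 2 + 2 * δ * x))).1
        simp only
        linarith
      · simp only [hbt, hβ]
        have : 3 / 2 + 2 * δ * ((Bp.symm (3 / 2 + m + 2 * δ * y) - 3 / 2) / (2 * δ))
            = Bp.symm (3 / 2 + m + 2 * δ * y) := by field_simp; ring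
        rw [this, ← hBb, Equiv.apply_symm_apply]
        field_simp; ring
    have h6 := hκC.comp (B := univ) (one_le_ic (by norm_num) 4) (by positivity) hβD
      (fun x _ => trivial)
    have h7 : (fun z => (s' (3 / 2 + m + 2 * δ * z) - (3 / 2 + m + 2 * δ * z)) / (2 * δ))
        = fun z => κ (3 / 2 + 2 * δ * β z) / (2 * δ) := by
      funext z
      rw [key]
      have : 3 / 2 + 2 * δ * β z = Bp.symm (3 / 2 + m + 2 * δ * z) := by
        simp only [hβ]; field_simp; ring
      rw [this]; congr 1; ring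
    rw [h7]
    refine h6.mono ?_
    rw [← hL, hM]
    have h8 : C4 * (n * e) / (n : ℝ) ^ 3 = C4 * (e / n ^ 2) := by field_simp
    have h9 : (T + 1) * C4 * L * e / (n : ℝ) ^ 2 = L * ((T + 1) * (C4 * (e / n ^ 2))) := by ring
    rw [h8, h9]
    have h10 : 0 ≤ C4 * (e / (n : ℝ) ^ 2) := by positivity
    gcongr
    linarith

theorem conj_deriv {F : ℝ → ℝ} (hF : ContDiff ℝ 2 F) {p q r t : ℝ} (hqt : q * t = 1) :
    ContDiff ℝ 2 (fun x => p + q * F (r + t * x)) ∧
    deriv (fun x => p + q * F (r + t * x)) = (fun x => deriv F (r + t * x)) ∧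
    deriv (deriv (fun x => p + q * F (r + t * x))) = fun x => t * deriv (deriv F) (r + t * x) := by
  have hFd : Differentiable ℝ F := hF.differentiable (by norm_num)
  have hF1 : ContDiff ℝ 1 (deriv F) := by
    have h1 : ContDiff ℝ ((1 : WithTop ℕ∞) + 1) F := by
      have : ((1 : WithTop ℕ∞) + 1) = 2 := by norm_num
      rw [this]; exact hF
    exact (contDiff_succ_iff_deriv.1 h1).2.2
  have hF1d : Differentiable ℝ (deriv F) := hF1.differentiable (by norm_num)
  have h1 : deriv (fun x => p + q * F (r + t * x)) = (fun x => deriv F (r + t * x)) := by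
    have h2 := deriv_affine hFd q r t
    rw [hqt] at h2
    funext x
    have h3 : deriv (fun x => p + q * F (r + t * x)) x = deriv (fun x => q * F (r + t * x)) x := by
      rw [deriv_const_add]
    rw [h3, h2]
    exact one_mul _
  refine ⟨?_, h1, ?_⟩
  · have : ContDiff ℝ 2 (fun x : ℝ => r + t * x) := by fun_prop
    exact contDiff_const.add (contDiff_const.mul (hF.comp this))
  · rw [h1]
    have h2 := deriv_affine hF1d 1 r t
    simp only [one_mul] at h2
    exact h2

/-- the affine map `x ↦ l + ℓ x` as a permutation -/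
noncomputable def aff (l ℓ : ℝ) (h : 0 < ℓ) : Equiv.Perm ℝ where
  toFun x := l + ℓ * x
  invFun y := (y - l) / ℓ
  left_inv x := by field_simp; ring
  right_inv y := by field_simp; ring

theorem aff_apply (l ℓ : ℝ) (h : 0 < ℓ) (x : ℝ) : aff l ℓ h x = l + ℓ * x := rfl

theorem aff_symm (l ℓ : ℝ) (h : 0 < ℓ) (x : ℝ) : (aff l ℓ h)⁻¹ x = (x - l) / ℓ := rfl

end H37

open H37 in
theorem rolling (Cθ : ℝ) : ∃ C c0 : ℝ, 0 < c0 ∧ 1 ≤ C ∧
    ∀ (A0 A1 B0 B1 : ℝ) (θ : ℝ → Equiv.Perm ℝ), TransFam A0 A1 B0 B1 Cθ θ → B0 < A0 → A1 < B1 →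
    ∀ (l ℓ e : ℝ) (n : ℕ) (s : Equiv.Perm ℝ), A0 ≤ l → l + 3 * ℓ ≤ A1 → 0 < ℓ → ℓ ≤ 1 → 8 ≤ n →
      0 ≤ e → n * e ≤ c0 → SuppIn l (l + ℓ) s → SZ 4 l ℓ e s →
    ∃ (a s' : Equiv.Perm ℝ) (l' : ℝ), s = comm a (θ (ℓ / n)) * s' ∧ SuppIn B0 B1 a ∧
      ContDiff ℝ 2 a ∧
      (∀ x, |a x - x| ≤ C * (n * e) * ℓ ∧ |deriv a x - 1| ≤ C * (n * e) ∧
        |deriv (deriv a) x| ≤ C * (n * e) / ℓ) ∧
      l + ℓ ≤ l' ∧ l' + 2 * (ℓ / n) ≤ l + 2 * ℓ ∧ SuppIn l' (l' + 2 * (ℓ / n)) s' ∧
      SZ 4 l' (2 * (ℓ / n)) (C * e / n ^ 2) s' := by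
  obtain ⟨C, c0, hc0, hC, H⟩ := rolling_core Cθ
  refine ⟨C, c0, hc0, hC, ?_⟩
  intro A0 A1 B0 B1 θ hθ hB0 hB1 l ℓ e n s hl hl3 hℓ hℓ1 hn he hne hs hσ
  set U := aff l ℓ hℓ with hU
  have hUx : ∀ x, U x = l + ℓ * x := fun x => rfl
  have hUi : ∀ x, U⁻¹ x = (x - l) / ℓ := fun x => rfl
  set st : Equiv.Perm ℝ := U⁻¹ * s * U with hst
  have hstx : ∀ x, st x = (s (l + ℓ * x) - l) / ℓ := fun x => rfl
  have hn8 : (8 : ℝ) ≤ n := by exact_mod_cast hn
  have hn0 : (0 : ℝ) < n := by linarith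
  have hθt : TransFam ((A0 - l) / ℓ) ((A1 - l) / ℓ) ((B0 - l) / ℓ) ((B1 - l) / ℓ) Cθ
      (fun t => U⁻¹ * θ (ℓ * t) * U) := by
    have hx : ∀ t x, (U⁻¹ * θ (ℓ * t) * U) x = (θ (ℓ * t) (l + ℓ * x) - l) / ℓ := fun t x => rfl
    refine ⟨?_, ?_, ?_, ?_⟩
    · intro t u
      rw [mul_add, hθ.add]
      group
    · intro t x h1 h2 h3 h4
      rw [hx]
      rw [div_le_iff₀ hℓ] at h1 h3
      rw [le_div_iff₀ hℓ] at h2 h4
      rw [hθ.trans (ℓ * t) (l + ℓ * x) (by linarith) (by linarith) (by linarith) (by linarith)]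
      field_simp; ring
    · intro t x h1
      rw [hx]
      rw [le_div_iff₀ hℓ, div_le_iff₀ hℓ] at h1
      rw [hθ.supp (ℓ * t) (l + ℓ * x) (by
        rcases h1 with h1 | h1
        · left; linarith
        · right; linarith)]
      field_simp; ring
    · intro t ht
      have ht' : |ℓ * t| ≤ 1 := by
        rw [abs_mul, abs_of_pos hℓ]
        have := abs_nonneg t
        nlinarith
      obtain ⟨h1, h2⟩ := hθ.small (ℓ * t) ht'
      have hCθ0 : 0 ≤ Cθ * |t| := by
        have h3 := (abs_nonneg _).trans (h2 0).1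
        rw [abs_mul, abs_of_pos hℓ] at h3
        have h4 : Cθ * (ℓ * |t|) = ℓ * (Cθ * |t|) := by ring
        rw [h4] at h3
        exact nonneg_of_mul_nonneg_right h3 hℓ
      have h3 : (⇑(U⁻¹ * θ (ℓ * t) * U) : ℝ → ℝ)
          = fun x => (-l / ℓ) + (1 / ℓ) * (θ (ℓ * t)) (l + ℓ * x) := by
        funext x; rw [hx]; field_simp; ring
      obtain ⟨c1, c2, c3⟩ := conj_deriv h1 (p := -l / ℓ) (q := 1 / ℓ) (r := l) (t := ℓ)
        (by field_simp)
      rw [h3]
      refine ⟨c1, fun x => ⟨?_, ?_, ?_⟩⟩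
      · have h4 := (h2 (l + ℓ * x)).1
        rw [abs_mul, abs_of_pos hℓ] at h4
        have h5 : -l / ℓ + 1 / ℓ * (θ (ℓ * t)) (l + ℓ * x) - x
            = ((θ (ℓ * t)) (l + ℓ * x) - (l + ℓ * x)) / ℓ := by field_simp; ring
        rw [h5, abs_div, abs_of_pos hℓ, div_le_iff₀ hℓ]
        linarith
      · rw [c2]
        have h4 := (h2 (l + ℓ * x)).2.1
        rw [abs_mul, abs_of_pos hℓ] at h4
        refine h4.trans ?_
        have h6 : Cθ * (ℓ * |t|) = ℓ * (Cθ * |t|) := by ring
        rw [h6]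
        nlinarith
      · rw [c3]
        have h4 := (h2 (l + ℓ * x)).2.2
        rw [abs_mul, abs_of_pos hℓ] at h4
        simp only [abs_mul, abs_of_pos hℓ]
        have h6 : Cθ * (ℓ * |t|) = ℓ * (Cθ * |t|) := by ring
        rw [h6] at h4
        have h7 : ℓ * |deriv (deriv ⇑(θ (ℓ * t))) (l + ℓ * x)| ≤ ℓ * (ℓ * (Cθ * |t|)) := by
          gcongr
        have h8 : ℓ * (ℓ * (Cθ * |t|)) ≤ 1 * (1 * (Cθ * |t|)) := by gcongr
        linarith
  have h1 : (B0 - l) / ℓ < (A0 - l) / ℓ := by gcongr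
  have h2 : (A1 - l) / ℓ < (B1 - l) / ℓ := by gcongr
  have h3 : (A0 - l) / ℓ ≤ 0 := by
    apply div_nonpos_of_nonpos_of_nonneg <;> linarith
  have h4 : 3 ≤ (A1 - l) / ℓ := by rw [le_div_iff₀ hℓ]; linarith
  have hst01 : SuppIn 0 1 st := by
    intro x hx
    rw [hstx, hs (l + ℓ * x) (by
      rcases hx with hx | hx
      · left; nlinarith
      · right; nlinarith)]
    field_simp; ring
  have hstC : CBs univ 4 e (fun x => st x - x) := by
    have h5 : (fun x => st x - x) = fun x => (s (l + ℓ * x) - (l + ℓ * x)) / ℓ := by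
      funext x; rw [hstx]; field_simp; ring
    rw [h5]
    exact CB_iff.1 hσ
  obtain ⟨a, s', m, hss, haB, haC, haE, hm, hs'S, hs'C⟩ :=
    H _ _ _ _ _ hθt h1 h2 h3 h4 e n st hn he hne hst01 hstC
  refine ⟨U * a * U⁻¹, U * s' * U⁻¹, l + ℓ * (3 / 2 + m), ?_, ?_, ?_, ?_, ?_, ?_, ?_, ?_⟩
  · have h5 : s = U * st * U⁻¹ := by rw [hst]; group
    have h6 : ℓ * (1 / n) = ℓ / n := by ring
    rw [h5, hss]
    unfold comm
    rw [h6]
    group
  · intro x hx
    show l + ℓ * (a ((x - l) / ℓ)) = x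
    rw [haB ((x - l) / ℓ) (by
      rcases hx with hx | hx
      · left; gcongr
      · right; gcongr)]
    field_simp; ring
  · have h5 : (⇑(U * a * U⁻¹) : ℝ → ℝ) = fun x => l + ℓ * a (-l / ℓ + 1 / ℓ * x) := by
      funext x
      show l + ℓ * (a ((x - l) / ℓ)) = _
      congr 3; field_simp; ring
    rw [h5]
    exact (conj_deriv haC (by field_simp)).1
  · intro x
    have h5 : (⇑(U * a * U⁻¹) : ℝ → ℝ) = fun x => l + ℓ * a (-l / ℓ + 1 / ℓ * x) := by
      funext x
      show l + ℓ * (a ((x - l) / ℓ)) = _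
      congr 3; field_simp; ring
    obtain ⟨c1, c2, c3⟩ := conj_deriv haC (p := l) (q := ℓ) (r := -l / ℓ) (t := 1 / ℓ)
        (by field_simp)
    rw [h5, c3, c2]
    obtain ⟨h6, h7, h8⟩ := haE (-l / ℓ + 1 / ℓ * x)
    refine ⟨?_, h7, ?_⟩
    · have h9 : l + ℓ * a (-l / ℓ + 1 / ℓ * x) - x
          = (a (-l / ℓ + 1 / ℓ * x) - (-l / ℓ + 1 / ℓ * x)) * ℓ := by field_simp; ring
      simp only
      rw [h9, abs_mul, abs_of_pos hℓ]
      gcongr
    · simp only
      rw [abs_mul, abs_of_pos (by positivity : 0 < 1 / ℓ), le_div_iff₀ hℓ]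
      have h10 : 1 / ℓ * |deriv (deriv ⇑a) (-l / ℓ + 1 / ℓ * x)| * ℓ
          = |deriv (deriv ⇑a) (-l / ℓ + 1 / ℓ * x)| := by field_simp
      rw [h10]; exact h8
  · have := (abs_le.1 hm).1
    nlinarith
  · have h5 := (abs_le.1 hm).2
    have h6 : ℓ / n ≤ ℓ / 8 := by gcongr
    nlinarith
  · intro x hx
    show l + ℓ * (s' ((x - l) / ℓ)) = x
    rw [hs'S ((x - l) / ℓ) (by
      rcases hx with hx | hx
      · left
        rw [div_le_iff₀ hℓ]; linarith
      · right
        rw [le_div_iff₀ hℓ]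
        have : 2 * (ℓ / n) = 2 * (1 / n) * ℓ := by ring
        rw [this] at hx
        linarith)]
    field_simp; ring
  · have h5 : (fun x => ((U * s' * U⁻¹) (l + ℓ * (3 / 2 + m) + 2 * (ℓ / n) * x)
        - (l + ℓ * (3 / 2 + m) + 2 * (ℓ / n) * x)) / (2 * (ℓ / n)))
        = (fun z => (s' (3 / 2 + m + 2 * (1 / n) * z)
        - (3 / 2 + m + 2 * (1 / n) * z)) / (2 * (1 / n))) := by
      funext z
      show (l + ℓ * (s' ((l + ℓ * (3 / 2 + m) + 2 * (ℓ / n) * z - l) / ℓ)) - _) / _ = _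
      have h6 : (l + ℓ * (3 / 2 + m) + 2 * (ℓ / n) * z - l) / ℓ = 3 / 2 + m + 2 * (1 / n) * z := by
        field_simp; ring
      rw [h6]
      field_simp; ring
    show CB 4 _ _
    rw [h5]
    exact CB_iff.2 hs'C

end Pool.Agent.Germ
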